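import Pool.Agent.R588.MMeas

/-!
# Diagonal Prikry forcing preserves Magidor cardinals

Let `lam` be a Magidor cardinal, let `κ 0 < κ 1 < …` be measurable cardinals cofinal in `lam`, let
`U n` be a normal ultrafilter on `κ n`, and let `P` be diagonal Prikry forcing for these
ultrafilters. Then every condition forces that `lam` is a cardinal and a Magidor cardinal.

The forcing relation is the one of `Pool.Agent.Helper669.Forcing`: a sentence of the forcing
language is represented by the set of the conditions which force it.

Idea of the proof. Let `f` be a name for a function on the countable bounded subsets of `lam`.
For each countable bounded set `x` and each `l` there is a direct extension of a fixed condition of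
length `l` which decides the value `f x` if it is less than `κ (l - 1)`. Call `B l x i` its set with
index `i`. Apply the Magidor property in the ground model to one function which codes all the
decided values and, with the help of `ω`-Jonsson functions for the families of subsets of
the cardinals `κ i`, also the maps `x ↦ B l x i`. We get a set `A` and a value `γ` omitted by the
decided values on `A`, such that for `l` with `γ < κ (l - 1)` and all `i ≥ l` there are
fewer than `κ i` different sets `B l x i` for `x` in `[A]`. Their intersections are in the
ultrafilters, so some condition forces that `f` omits `γ` on the same set `A`.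
-/

set_option autoImplicit false

namespace Pool.Agent.Results.MP_6ff041_lc.MagidorPreserved

open Cardinal Pool.Agent.R588.M

theorem result (lam : Cardinal.{0}) (κ : ℕ → Cardinal.{0}) (hκ : StrictMono κ)
    (hlt : ∀ n, κ n < lam) (hcof : ∀ μ < lam, ∃ n, μ < κ n)
    (U : ∀ n, Ultrafilter (κ n).ord.ToType) (hU : ∀ n, IsNormalMeasure (κ n) (U n))
    (hM : IsMagidor lam) (p : Cond κ U) :
    p ∈ IsCardinalN (Cond κ U) lam.ord.ToType ∧ p ∈ MagidorN (Cond κ U) lam.ord.ToType :=
  main lam κ hκ hlt hcof U hU hM p

end Pool.Agent.Results.MP_6ff041_lc.MagidorPreserved
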